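import Pool.Agent.N70.EQ.Stm

/-!
# EQ/RT: regular solutions over `L'` give regular solutions over `L` (helper78, for helper70)
-/

set_option autoImplicit false

namespace Pool.Agent.N78.EQ

open Pool.Agent.H391R2 Pool.Agent.H391R2.T4 Pool.Agent.Y793 Pool.Agent.N70.EQ

section

variable {B Γ Γ' : Type} [Group B] [Group Γ] [Group Γ'] (a : B →* Γ) (ρ : Γ' →* Γ)
  (χ : Γ →* ℤˣ) (n : ℕ)

/-- the map of the alternating fibre powers -/
noncomputable def fTw : AltTw (fpk a ρ) (χ.comp ρ) n →* AltTw a χ n :=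
  (((wrMap ((MonoidHom.fst B Γ').comp (FPk a ρ).subtype) n).prodMap ρ).comp
    (AltTw (fpk a ρ) (χ.comp ρ) n).subtype).codRestrict (AltTw a χ n) (by
    rintro ⟨⟨x, r⟩, hz⟩
    obtain ⟨h1, h2⟩ := Subgroup.mem_inf.1 hz
    refine Subgroup.mem_inf.2 ⟨fun i => ?_, h2⟩
    have h3 : a (x.left i).1.1 = ρ (x.left i).1.2 := (x.left i).2
    have h4 : (x.left i).1.2 = r := h1 i
    change a (x.left i).1.1 = ρ r
    rw [h3, h4])

theorem fTw_surj (hρ : Function.Surjective ρ) : Function.Surjective (fTw a ρ χ n) := by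
  rintro ⟨⟨x, r⟩, hz⟩
  obtain ⟨h1, h2⟩ := Subgroup.mem_inf.1 hz
  obtain ⟨r', rfl⟩ := hρ r
  refine ⟨⟨(⟨fun i => ⟨(x.left i, r'), h1 i⟩, x.right⟩, r'),
    Subgroup.mem_inf.2 ⟨fun i => rfl, h2⟩⟩, ?_⟩
  apply Subtype.ext
  refine Prod.ext ?_ rfl
  apply SemidirectProduct.ext
  · funext i
    rfl
  · rfl

theorem fTw_one (r : Γ') (hr : ρ r = 1) :
    ∃ z, fTw a ρ χ n z = 1 ∧ twProj (fpk a ρ) (χ.comp ρ) n z = r := by
  refine ⟨⟨(⟨fun i => ⟨(1, r), ?_⟩, 1⟩, r), Subgroup.mem_inf.2 ⟨fun i => rfl, ?_⟩⟩, ?_, rfl⟩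
  · change a 1 = ρ r
    rw [map_one, hr]
  · change Equiv.Perm.sign (1 : Equiv.Perm (Fin n)) = χ (ρ r)
    rw [hr, map_one, map_one]
  · apply Subtype.ext
    refine Prod.ext ?_ hr
    apply SemidirectProduct.ext
    · funext i
      rfl
    · rfl

end

theorem t_rt : Pool.Agent.N70.EQ.St_rt := by
  intro K L L' _ _ _ _ _ _ _ _ _ _ _ _ B _ a χ n h
  have hs : Function.Surjective (AlgEquiv.restrictNormalHom (F := K) (K₁ := L') L) :=
    AlgEquiv.restrictNormalHom_surjective (F := K) (K₁ := L) L'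
  refine RegSol.quot (twProj a χ n)
    (twProj (fpk a (AlgEquiv.restrictNormalHom (F := K) (K₁ := L') L))
      (χ.comp (AlgEquiv.restrictNormalHom (F := K) (K₁ := L') L)) n)
    (fTw a (AlgEquiv.restrictNormalHom (F := K) (K₁ := L') L) χ n) ?_ ?_ ?_ h
  · exact fTw_surj a _ χ n hs
  · intro g'
    rfl
  · intro r hr
    exact fTw_one a _ χ n r hr

end Pool.Agent.N78.EQ
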